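import Pool.Agent.W96.CL.Stm

/-! Project CL: the partition representation. -/

set_option autoImplicit false

namespace W96CL

namespace Rep

variable {n : ℕ}

theorem cut_iff (k : Fin n) (r : Setoid (Option (Fin n))) (a b : Option (Fin n)) :
    (cutS k r) a b ↔ (a = b ∨ (a ≠ some k ∧ b ≠ some k ∧ r a b)) := Iff.rfl

theorem join_iff (k l : Fin n) (r : Setoid (Option (Fin n))) (a b : Option (Fin n)) :
    (joinS k l r) a b ↔ (r a b ∨ (r a (some k) ∧ r (some l) b) ∨ (r a (some l) ∧ r (some k) b)) :=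
  Iff.rfl

theorem join_le (k l : Fin n) (r s : Setoid (Option (Fin n))) :
    joinS k l r ≤ s ↔ r ≤ s ∧ s (some k) (some l) := by
  constructor
  · intro h
    refine ⟨fun a b hab => h (Or.inl hab), h (Or.inr (Or.inl ⟨r.refl _, r.refl _⟩))⟩
  · rintro ⟨h1, h2⟩ a b (h | ⟨h3, h4⟩ | ⟨h3, h4⟩)
    · exact h1 h
    · exact s.trans (h1 h3) (s.trans h2 (h1 h4))
    · exact s.trans (h1 h3) (s.trans (s.symm h2) (h1 h4))

theorem join_self (k l : Fin n) (r : Setoid (Option (Fin n))) :
    (joinS k l r) (some k) (some l) := ((join_le k l r _).1 le_rfl).2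

theorem le_join (k l : Fin n) (r : Setoid (Option (Fin n))) : r ≤ joinS k l r :=
  ((join_le k l r _).1 le_rfl).1

theorem join_comm (k l k' l' : Fin n) (r : Setoid (Option (Fin n))) :
    joinS k l (joinS k' l' r) = joinS k' l' (joinS k l r) := by
  apply eq_of_forall_ge_iff
  intro s
  rw [join_le, join_le, join_le, join_le]
  tauto

theorem join_idem (k l : Fin n) (r : Setoid (Option (Fin n))) :
    joinS k l (joinS k l r) = joinS k l r := by
  apply eq_of_forall_ge_iff
  intro s
  rw [join_le, join_le]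
  tauto

theorem join_symm (k l : Fin n) (r : Setoid (Option (Fin n))) :
    joinS k l r = joinS l k r := by
  apply eq_of_forall_ge_iff
  intro s
  rw [join_le, join_le]
  exact ⟨fun h => ⟨h.1, s.symm h.2⟩, fun h => ⟨h.1, s.symm h.2⟩⟩

theorem cut_le (k : Fin n) (r : Setoid (Option (Fin n))) : cutS k r ≤ r := by
  rintro a b (h | ⟨_, _, h⟩)
  · subst h; exact r.refl _
  · exact h

theorem cut_idem (k : Fin n) (r : Setoid (Option (Fin n))) :
    cutS k (cutS k r) = cutS k r := by
  ext a b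
  show (cutS k (cutS k r)) a b ↔ (cutS k r) a b
  rw [cut_iff, cut_iff]
  tauto

theorem cut_comm (k l : Fin n) (r : Setoid (Option (Fin n))) :
    cutS k (cutS l r) = cutS l (cutS k r) := by
  ext a b
  show (cutS k (cutS l r)) a b ↔ (cutS l (cutS k r)) a b
  rw [cut_iff, cut_iff, cut_iff, cut_iff]
  tauto

theorem cut_right (k : Fin n) (r : Setoid (Option (Fin n))) (a : Option (Fin n)) :
    (cutS k r) a (some k) ↔ a = some k := by
  rw [cut_iff]
  tauto

theorem cut_left (k : Fin n) (r : Setoid (Option (Fin n))) (a : Option (Fin n)) :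
    (cutS k r) (some k) a ↔ a = some k := by
  rw [cut_iff]
  constructor
  · rintro (h | ⟨h, _⟩)
    · exact h.symm
    · exact absurd rfl h
  · intro h
    exact Or.inl h.symm

theorem cjc (k l : Fin n) (r : Setoid (Option (Fin n))) :
    cutS k (joinS k l (cutS k r)) = cutS k r := by
  ext a b
  show (cutS k (joinS k l (cutS k r))) a b ↔ (cutS k r) a b
  rw [cut_iff, join_iff, cut_right, cut_left]
  constructor
  · rintro (h | ⟨h1, h2, h3 | ⟨h3, _⟩ | ⟨_, h3⟩⟩)
    · exact Or.inl h
    · exact h3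
    · exact absurd h3 h1
    · exact absurd h3 h2
  · rintro (h | ⟨h1, h2, h3⟩)
    · exact Or.inl h
    · exact Or.inr ⟨h1, h2, Or.inl (Or.inr ⟨h1, h2, h3⟩)⟩

theorem cjc' (k l : Fin n) (r : Setoid (Option (Fin n))) :
    cutS l (joinS k l (cutS l r)) = cutS l r := by
  rw [join_symm, cjc]

theorem jcj (k l : Fin n) (hkl : k ≠ l) (r : Setoid (Option (Fin n))) :
    joinS k l (cutS k (joinS k l r)) = joinS k l r := by
  apply le_antisymm
  · rw [join_le]
    exact ⟨cut_le _ _, join_self _ _ _⟩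
  · intro a b hab
    set R := joinS k l r with hR
    have hRkl : R (some k) (some l) := join_self _ _ _
    set j := joinS k l (cutS k R) with hj
    have hjkl : j (some k) (some l) := join_self _ _ _
    have hc : ∀ a b : Option (Fin n), a ≠ some k → b ≠ some k → R a b → j a b :=
      fun a b h1 h2 h3 => le_join k l _ (Or.inr ⟨h1, h2, h3⟩)
    have hl : (some l : Option (Fin n)) ≠ some k := fun h => hkl (Option.some.inj h).symm
    by_cases ha : a = some k
    · subst ha
      by_cases hb : b = some k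
      · subst hb; exact j.refl _
      · exact j.trans hjkl (hc _ _ hl hb (R.trans (R.symm hRkl) hab))
    · by_cases hb : b = some k
      · subst hb
        exact j.trans (hc _ _ ha hl (R.trans hab hRkl)) (j.symm hjkl)
      · exact hc _ _ ha hb hab

theorem jcj' (k l : Fin n) (hkl : k ≠ l) (r : Setoid (Option (Fin n))) :
    joinS k l (cutS l (joinS k l r)) = joinS k l r := by
  rw [join_symm k l r, join_symm k l, jcj l k hkl.symm]

theorem cut_join (m k l : Fin n) (hk : k ≠ m) (hl : l ≠ m) (r : Setoid (Option (Fin n))) :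
    cutS m (joinS k l r) = joinS k l (cutS m r) := by
  have hk' : (some k : Option (Fin n)) ≠ some m := fun h => hk (Option.some.inj h)
  have hl' : (some l : Option (Fin n)) ≠ some m := fun h => hl (Option.some.inj h)
  apply le_antisymm
  · rintro a b (h | ⟨h1, h2, h3 | ⟨h3, h4⟩ | ⟨h3, h4⟩⟩)
    · subst h; exact Setoid.refl' _ _
    · exact Or.inl (Or.inr ⟨h1, h2, h3⟩)
    · exact Or.inr (Or.inl ⟨Or.inr ⟨h1, hk', h3⟩, Or.inr ⟨hl', h2, h4⟩⟩)
    · exact Or.inr (Or.inr ⟨Or.inr ⟨h1, hl', h3⟩, Or.inr ⟨hk', h2, h4⟩⟩)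
  · rw [join_le]
    refine ⟨?_, Or.inr ⟨hk', hl', join_self _ _ _⟩⟩
    rintro a b (h | ⟨h1, h2, h3⟩)
    · exact Or.inl h
    · exact Or.inr ⟨h1, h2, Or.inl h3⟩

/-! ### the generators -/

theorem gen_even (k : ℕ) (hk : k < n) (r : Setoid (Option (Fin n))) :
    gen n (2 * k) r = cutS ⟨k, hk⟩ r := by
  have h1 : (2 * k) % 2 = 0 := by omega
  have h2 : (2 * k) / 2 = k := by omega
  unfold gen
  rw [dif_pos ⟨h1, by rw [h2]; exact hk⟩]
  congr 1
  exact Fin.ext h2

theorem gen_odd (k : ℕ) (hk : k + 1 < n) (r : Setoid (Option (Fin n))) :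
    gen n (2 * k + 1) r = joinS ⟨k, by omega⟩ ⟨k + 1, hk⟩ r := by
  have h1 : (2 * k + 1) % 2 = 1 := by omega
  have h2 : (2 * k + 1) / 2 = k := by omega
  unfold gen
  rw [dif_neg (by omega), dif_pos ⟨h1, by rw [h2]; exact hk⟩]
  congr 1
  · exact Fin.ext h2
  · exact Fin.ext (by simp only [h2])

theorem gen_sq (i : ℕ) (hi : i + 1 < 2 * n) (r : Setoid (Option (Fin n))) :
    gen n i (gen n i r) = gen n i r := by
  rcases Nat.even_or_odd' i with ⟨k, rfl | rfl⟩
  · rw [gen_even k (by omega), gen_even k (by omega), cut_idem]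
  · rw [gen_odd k (by omega), gen_odd k (by omega), join_idem]

theorem gen_up (i : ℕ) (hi : i + 2 < 2 * n) (r : Setoid (Option (Fin n))) :
    gen n i (gen n (i + 1) (gen n i r)) = gen n i r := by
  rcases Nat.even_or_odd' i with ⟨k, rfl | rfl⟩
  · rw [gen_even k (by omega), gen_odd k (by omega), gen_even k (by omega)]
    exact cjc _ _ _
  · rw [gen_odd k (by omega), show 2 * k + 1 + 1 = 2 * (k + 1) by ring,
      gen_even (k + 1) (by omega), gen_odd k (by omega)]
    exact jcj' _ _ (by intro h; have := congrArg Fin.val h; simp at this) _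

theorem gen_dn (i : ℕ) (hi : i + 2 < 2 * n) (r : Setoid (Option (Fin n))) :
    gen n (i + 1) (gen n i (gen n (i + 1) r)) = gen n (i + 1) r := by
  rcases Nat.even_or_odd' i with ⟨k, rfl | rfl⟩
  · rw [gen_odd k (by omega), gen_even k (by omega), gen_odd k (by omega)]
    exact jcj _ _ (by intro h; have := congrArg Fin.val h; simp at this) _
  · rw [show 2 * k + 1 + 1 = 2 * (k + 1) by ring,
      gen_even (k + 1) (by omega), gen_odd k (by omega), gen_even (k + 1) (by omega)]
    exact cjc' _ _ _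

theorem gen_cm (i j : ℕ) (hij : i + 1 < j) (hj : j + 1 < 2 * n) (r : Setoid (Option (Fin n))) :
    gen n i (gen n j r) = gen n j (gen n i r) := by
  rcases Nat.even_or_odd' i with ⟨k, rfl | rfl⟩
  · rcases Nat.even_or_odd' j with ⟨l, rfl | rfl⟩
    · rw [gen_even k (by omega), gen_even l (by omega), gen_even k (by omega),
        gen_even l (by omega)]
      exact cut_comm _ _ _
    · rw [gen_even k (by omega), gen_odd l (by omega), gen_even k (by omega),
        gen_odd l (by omega)]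
      exact cut_join _ _ _ (by intro h; have := congrArg Fin.val h; simp at this; omega)
        (by intro h; have := congrArg Fin.val h; simp at this; omega) _
  · rcases Nat.even_or_odd' j with ⟨l, rfl | rfl⟩
    · rw [gen_odd k (by omega), gen_even l (by omega), gen_odd k (by omega),
        gen_even l (by omega)]
      exact (cut_join _ _ _ (by intro h; have := congrArg Fin.val h; simp at this; omega)
        (by intro h; have := congrArg Fin.val h; simp at this; omega) _).symm
    · rw [gen_odd k (by omega), gen_odd l (by omega), gen_odd k (by omega),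
        gen_odd l (by omega)]
      exact join_comm _ _ _ _ _

theorem alive_gen (i : ℕ) (r : Setoid (Option (Fin n))) (h : alive (gen n i r)) : alive r := by
  unfold gen at h
  split_ifs at h with h1 h2
  · obtain ⟨j, hj | ⟨_, _, hj⟩⟩ := h
    · cases hj
    · exact ⟨j, hj⟩
  · obtain ⟨j, hj | ⟨hj, _⟩ | ⟨hj, _⟩⟩ := h
    · exact ⟨j, hj⟩
    · exact ⟨_, hj⟩
    · exact ⟨_, hj⟩
  · exact h

/-! ### maps as matrices -/

/-- good maps -/
def Ok (g : Setoid (Option (Fin n)) → Setoid (Option (Fin n))) : Prop :=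
  (∀ r, alive (g r) → alive r) ∧ (∀ r, Reach n r → alive (g r) → Reach n (g r))

theorem ok_gen (i : ℕ) : Ok (gen n i) :=
  ⟨fun r h => alive_gen i r h, fun r h h' => Reach.gen i r h h'⟩

theorem ok_id : Ok (id : Setoid (Option (Fin n)) → Setoid (Option (Fin n))) :=
  ⟨fun _ h => h, fun _ h _ => h⟩

theorem ok_comp {g g' : Setoid (Option (Fin n)) → Setoid (Option (Fin n))} (h : Ok g)
    (h' : Ok g') : Ok (g ∘ g') :=
  ⟨fun r hr => h'.1 _ (h.1 _ hr), fun r hr ha => h.2 _ (h'.2 _ hr (h.1 _ ha)) ha⟩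

theorem reach_alive (hn : 1 ≤ n) {r : Setoid (Option (Fin n))} (h : Reach n r) : alive r := by
  cases h with
  | top => exact ⟨⟨0, hn⟩, trivial⟩
  | gen i r h h' => exact h'

open Classical in
/-- the matrix of a map -/
noncomputable def Mf (g : Setoid (Option (Fin n)) → Setoid (Option (Fin n))) :
    Matrix (St n) (St n) ℝ := fun τ σ => if g σ.1 = τ.1 then 1 else 0

theorem Mf_gen (i : ℕ) : ER n i = Mf (gen n i) := rfl

theorem Mf_id : (1 : Matrix (St n) (St n) ℝ) = Mf id := by
  ext τ σ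
  rw [Matrix.one_apply]
  unfold Mf
  by_cases h : τ = σ
  · subst h; simp
  · rw [if_neg h, if_neg]
    intro h'
    exact h (Subtype.ext h'.symm)

theorem Mf_mul (hn : 1 ≤ n) {g g' : Setoid (Option (Fin n)) → Setoid (Option (Fin n))} (h : Ok g)
    (h' : Ok g') : Mf g * Mf g' = Mf (g ∘ g') := by
  ext τ σ
  rw [Matrix.mul_apply]
  unfold Mf
  by_cases hc : g (g' σ.1) = τ.1
  · rw [if_pos (show (g ∘ g') σ.1 = τ.1 from hc)]
    have ha : alive (g (g' σ.1)) := by rw [hc]; exact reach_alive hn τ.2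
    have hr : Reach n (g' σ.1) := h'.2 _ σ.2 (h.1 _ ha)
    refine (Finset.sum_eq_single (⟨g' σ.1, hr⟩ : St n) ?_ ?_).trans ?_
    · intro ρ _ hρ
      rw [if_neg (show ¬ g' σ.1 = ρ.1 from fun e => hρ (Subtype.ext e.symm)), mul_zero]
    · intro h; exact (h (Finset.mem_univ (α := St n) _)).elim
    · rw [if_pos hc, if_pos rfl, one_mul]
  · rw [if_neg (show ¬ (g ∘ g') σ.1 = τ.1 from hc)]
    apply Finset.sum_eq_zero
    intro ρ _
    by_cases h1 : g' σ.1 = ρ.1
    · rw [if_neg (show ¬ g ρ.1 = τ.1 from fun e => hc (by rw [h1]; exact e)), zero_mul]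
    · rw [if_neg h1, mul_zero]

theorem tlR (hn : 1 ≤ n) : (∀ i, i + 1 < 2 * n → ER n i * ER n i = ER n i) ∧
    (∀ i, i + 2 < 2 * n → ER n i * ER n (i + 1) * ER n i = ER n i) ∧
    (∀ i, i + 2 < 2 * n → ER n (i + 1) * ER n i * ER n (i + 1) = ER n (i + 1)) ∧
    (∀ i j, i + 1 < j → j + 1 < 2 * n → ER n i * ER n j = ER n j * ER n i) := by
  refine ⟨fun i hi => ?_, fun i hi => ?_, fun i hi => ?_, fun i j hij hj => ?_⟩
  · rw [Mf_gen, Mf_mul hn (ok_gen _) (ok_gen _)]
    congr 1
    funext r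
    exact gen_sq i hi r
  · rw [Mf_gen, Mf_gen, Mf_mul hn (ok_gen _) (ok_gen _),
      Mf_mul hn (ok_comp (ok_gen _) (ok_gen _)) (ok_gen _)]
    congr 1
    funext r
    exact gen_up i hi r
  · rw [Mf_gen, Mf_gen, Mf_mul hn (ok_gen _) (ok_gen _),
      Mf_mul hn (ok_comp (ok_gen _) (ok_gen _)) (ok_gen _)]
    congr 1
    funext r
    exact gen_dn i hi r
  · rw [Mf_gen, Mf_gen, Mf_mul hn (ok_gen _) (ok_gen _), Mf_mul hn (ok_gen _) (ok_gen _)]
    congr 1
    funext r
    exact gen_cm i j hij hj r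

theorem EC_mul (i j : ℕ) : EC n i * EC n j = (ER n i * ER n j).map (algebraMap ℝ ℂ) := by
  unfold EC
  exact (Matrix.map_mul (f := algebraMap ℝ ℂ)).symm

theorem tlC (hn : 1 ≤ n) : TL (EC n) (2 * n) := by
  obtain ⟨h1, h2, h3, h4⟩ := tlR (n := n) hn
  refine ⟨fun i hi => ?_, fun i hi => ?_, fun i hi => ?_, fun i j hij hj => ?_⟩
  · rw [EC_mul, h1 i hi]; rfl
  · rw [EC_mul]
    show (ER n i * ER n (i + 1)).map (algebraMap ℝ ℂ) * (ER n i).map (algebraMap ℝ ℂ) = _
    rw [← Matrix.map_mul, h2 i hi]; rfl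
  · rw [EC_mul]
    show (ER n (i + 1) * ER n i).map (algebraMap ℝ ℂ) * (ER n (i + 1)).map (algebraMap ℝ ℂ) = _
    rw [← Matrix.map_mul, h3 i hi]; rfl
  · rw [EC_mul, EC_mul, h4 i j hij hj]

theorem layC (i m : ℕ) : lay0 (EC n) i m = (lay0 (ER n) i m).map (algebraMap ℝ ℂ) := by
  induction m generalizing i with
  | zero => exact (Matrix.map_one _ (map_zero _) (map_one _)).symm
  | succ m ih =>
    show EC n i * lay0 (EC n) (i + 2) m = (ER n i * lay0 (ER n) (i + 2) m).map (algebraMap ℝ ℂ)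
    rw [ih, Matrix.map_mul]
    rfl

/-- the layer as a map -/
def layG (n : ℕ) : ℕ → ℕ → Setoid (Option (Fin n)) → Setoid (Option (Fin n))
  | _, 0 => id
  | i, (m + 1) => gen n i ∘ layG n (i + 2) m

theorem ok_lay (i m : ℕ) : Ok (layG n i m) := by
  induction m generalizing i with
  | zero => exact ok_id
  | succ m ih => exact ok_comp (ok_gen _) (ih _)

theorem layR' (hn : 1 ≤ n) (i m : ℕ) : lay0 (ER n) i m = Mf (layG n i m) := by
  induction m generalizing i with
  | zero => exact Mf_id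
  | succ m ih =>
    show ER n i * lay0 (ER n) (i + 2) m = Mf (gen n i ∘ layG n (i + 2) m)
    rw [ih, Mf_gen, Mf_mul hn (ok_gen _) (ok_lay _ _)]

theorem lay_cut (m : ℕ) : ∀ (k : ℕ) (_ : k + m ≤ n) (r : Setoid (Option (Fin n))) (j : Fin n),
    k ≤ j.1 → j.1 < k + m → ¬ (layG n (2 * k) m r) none (some j) := by
  induction m with
  | zero => intro k _ r j h1 h2; omega
  | succ m ih =>
    intro k hk r j h1 h2 h
    have h3 : (cutS ⟨k, by omega⟩ (layG n (2 * (k + 1)) m r)) none (some j) := by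
      rw [← gen_even k (by omega)]
      exact h
    rcases h3 with h3 | ⟨_, h3, h4⟩
    · cases h3
    · by_cases hj : j.1 = k
      · exact h3 (congrArg some (Fin.ext hj))
      · exact ih (k + 1) (by omega) r j (by omega) (by omega) h4

theorem lay_keep (m : ℕ) : ∀ (k : ℕ) (_ : k + m ≤ n) (r : Setoid (Option (Fin n))) (j : Fin n),
    k + m ≤ j.1 → r none (some j) → (layG n (2 * k) m r) none (some j) := by
  induction m with
  | zero => intro k _ r j h1 h2; exact h2
  | succ m ih =>
    intro k hk r j h1 h2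
    have h3 : (cutS ⟨k, by omega⟩ (layG n (2 * (k + 1)) m r)) none (some j) := by
      refine Or.inr ⟨by simp, ?_, ih (k + 1) (by omega) r j (by omega) h2⟩
      intro h
      have := congrArg Fin.val (Option.some.inj h)
      simp at this
      omega
    rw [← gen_even k (by omega)] at h3
    exact h3

theorem lay_join (m : ℕ) : ∀ (k : ℕ) (_ : k + m < n) (r : Setoid (Option (Fin n))),
    r ≤ layG n (2 * k + 1) m r ∧ ∀ j : Fin n, k ≤ j.1 → j.1 ≤ k + m →
      (layG n (2 * k + 1) m r) (some ⟨k, by omega⟩) (some j) := by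
  induction m with
  | zero =>
    intro k hk r
    refine ⟨le_rfl, fun j h1 h2 => ?_⟩
    have : (⟨k, by omega⟩ : Fin n) = j := Fin.ext (by simp; omega)
    rw [this]
  | succ m ih =>
    intro k hk r
    obtain ⟨ih1, ih2⟩ := ih (k + 1) (by omega) r
    have h0 : layG n (2 * k + 1) (m + 1) r =
        joinS ⟨k, by omega⟩ ⟨k + 1, by omega⟩ (layG n (2 * (k + 1) + 1) m r) := by
      rw [← gen_odd k (by omega)]
      rfl
    rw [h0]
    refine ⟨ih1.trans (le_join _ _ _), fun j h1 h2 => ?_⟩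
    by_cases hj : j.1 = k
    · have : (⟨k, by omega⟩ : Fin n) = j := Fin.ext hj.symm
      rw [← this]
    · exact Setoid.trans' _ (join_self _ _ _) (le_join _ _ _ (ih2 j (by omega) (by omega)))

theorem lay_top (hn : 1 ≤ n) (r : Setoid (Option (Fin n))) (hr : alive r) :
    layG n 1 (n - 1) r = ⊤ := by
  obtain ⟨h1, h2⟩ := lay_join (n := n) (n - 1) 0 (by omega) r
  obtain ⟨j0, hj0⟩ := hr
  set R := layG n 1 (n - 1) r with hR
  have key : ∀ a : Option (Fin n), R (some ⟨0, hn⟩) a := by
    intro a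
    cases a with
    | none => exact R.trans (h2 j0 (by omega) (by omega)) (R.symm (h1 hj0))
    | some j => exact h2 j (by omega) (by omega)
  rw [eq_top_iff]
  intro a b _
  exact R.trans (R.symm (key a)) (key b)

end Rep

open W96CL.Rep in
theorem cl_rep : S_rep := by
  intro n hn
  have hdead : lay0 (ER n) 0 n = 0 := by
    rw [layR' hn]
    ext τ σ
    unfold Mf
    rw [if_neg]
    · rfl
    · intro h
      obtain ⟨j, hj⟩ := reach_alive hn τ.2
      rw [← h] at hj
      exact lay_cut (n := n) n 0 (by omega) σ.1 j (by omega) (by omega) hj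
  have halive : alive (layG n 0 (n - 1) ⊤) :=
    ⟨⟨n - 1, by omega⟩, lay_keep (n := n) (n - 1) 0 (by omega) ⊤ ⟨n - 1, by omega⟩ (by simp)
      trivial⟩
  have hreach : Reach n (layG n 0 (n - 1) ⊤) := (ok_lay 0 (n - 1)).2 _ Reach.top halive
  have hent : lay0 (ER n) 0 (n - 1) (⟨_, hreach⟩ : St n) (st0 n) = 1 := by
    rw [layR' hn]
    unfold Mf
    exact if_pos rfl
  have hnn : ∀ τ σ, 0 ≤ lay0 (ER n) 0 (n - 1) τ σ := by
    intro τ σ
    rw [layR' hn]
    unfold Mf
    split_ifs <;> norm_num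
  refine ⟨tlC hn, ?_, hdead, ?_, ?_, ?_⟩
  · rw [layC, hdead]
    exact Matrix.map_zero _ (map_zero _)
  · intro τ σ
    rw [layR' hn]
    unfold Mf
    have h1 := lay_top hn σ.1 (reach_alive hn σ.2)
    by_cases h : τ = st0 n
    · rw [if_pos h, if_pos]
      rw [h1, h]
      rfl
    · rw [if_neg h, if_neg]
      intro h'
      rw [h1] at h'
      exact h (Subtype.ext h'.symm)
  · intro h
    have h1 := congrFun h (⟨_, hreach⟩ : St n)
    rw [layC] at h1
    unfold Matrix.mulVec dotProduct at h1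
    simp only [mul_ite, mul_one, mul_zero, Finset.sum_ite_eq', Finset.mem_univ, if_true] at h1
    have h2 : (algebraMap ℝ ℂ) (lay0 (ER n) 0 (n - 1) (⟨_, hreach⟩ : St n) (st0 n)) = 0 := h1
    rw [hent, map_one] at h2
    exact one_ne_zero h2
  · intro v hv
    refine ⟨(⟨_, hreach⟩ : St n), ?_⟩
    unfold Matrix.mulVec dotProduct
    refine Finset.sum_pos' (fun σ _ => mul_nonneg (hnn _ _) (hv σ).le) ⟨st0 n, Finset.mem_univ _, ?_⟩
    have e : lay0 (ER n) 0 (n - 1) (⟨_, hreach⟩ : St n) (st0 n) * v (st0 n) = v (st0 n) := by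
      rw [hent, one_mul]
    exact lt_of_lt_of_eq (hv _) e.symm

end W96CL
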